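import Mathlib
import Pool.Agent.Helper56_Grid.Defs
import Pool.Agent.Helper56_Grid.Bound

/-!
The question asks whether, for all positive `s` and `t`, every irreducible `(s, t)`-grid-free
affine hypersurface in `A^s x A^s` becomes, after a polynomial automorphism of the second factor,
a hypersurface of degree at most `d(s, t)` in `y`.  This is false already for `s = 2` and every
`t ≥ 2`: the hypersurfaces `1 + x_1 y_1 + x_2 y_1^b y_2 = 0` with `b = 1, 2, 3, ...` are
irreducible and `(2, 2)`-grid-free, and whenever such a hypersurface is `{F(x, σ(y)) = 0}` with
`σ` in `Aut(A^2)`, the degree of `F` in `y` is at least `b`.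
-/

set_option autoImplicit false

/-- For `s = 2` and every `t ≥ 2` there is no bound `d`: the assertion of the question fails. -/
theorem Pool.Agent.Results.MP_a64928_ag.NotBounded.result :
    ∀ t : ℕ, 2 ≤ t → ¬ Pool.Agent.Helper56Grid.BoundedUpToAut 2 t :=
  Pool.Agent.Helper56Grid.main
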